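import Pool.Agent.Helper64.DT.Stmts

/-! Module BAL: balanced signed relations. -/

set_option autoImplicit false

namespace Pool.Agent.Helper64.DT

/-- walks with length and parity -/
inductive balW {α : Type} (E : α → α → Bool → Prop) : ℕ → α → α → Bool → Prop
  | nil (u : α) : balW E 0 u u false
  | snoc (n : ℕ) (u v w : α) (b c : Bool) : balW E n u v b → E v w c →
      balW E (n + 1) u w (xor b c)

theorem bal_single {α : Type} {E : α → α → Bool → Prop} {u v : α} {b : Bool} (h : E u v b) :
    balW E 1 u v b := by
  have h1 := balW.snoc 0 u u v false b (balW.nil u) h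
  simpa using h1

theorem bal_append {α : Type} {E : α → α → Bool → Prop} {n m : ℕ} {u v w : α} {b c : Bool}
    (h : balW E n u v b) (h2 : balW E m v w c) : balW E (n + m) u w (xor b c) := by
  induction h2 with
  | nil v => simpa using h
  | snoc k v' x w d e _ he ih =>
    have h3 := balW.snoc _ _ _ _ _ _ (ih h) he
    have h4 : xor (xor b d) e = xor b (xor d e) := by
      cases b <;> cases d <;> cases e <;> rfl
    rw [h4] at h3
    exact h3

theorem bal_symm {α : Type} {E : α → α → Bool → Prop} (hE : ∀ u v b, E u v b → E v u b)
    {n : ℕ} {u v : α} {b : Bool} (h : balW E n u v b) : balW E n v u b := by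
  induction h with
  | nil v => exact balW.nil v
  | snoc k v' x w d e _ he ih =>
    have h3 := bal_append (bal_single (hE _ _ _ he)) ih
    have h4 : xor e d = xor d e := by
      cases d <;> cases e <;> rfl
    rw [h4, Nat.add_comm 1 k] at h3
    exact h3

/-- the parity of the first `n` signs -/
def balP (b : ℕ → Bool) : ℕ → Bool
  | 0 => false
  | n + 1 => xor (balP b n) (b n)

theorem bal_P_congr (b b' : ℕ → Bool) (n : ℕ) (h : ∀ i < n, b i = b' i) :
    balP b n = balP b' n := by
  induction n with
  | zero => rfl
  | succ n ih =>
    show xor (balP b n) (b n) = xor (balP b' n) (b' n)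
    rw [ih (fun i hi => h i (by omega)), h n (by omega)]

theorem bal_extract {α : Type} {E : α → α → Bool → Prop} {n : ℕ} {u v : α} {b : Bool}
    (h : balW E n u v b) : ∃ (y : ℕ → α) (s : ℕ → Bool), y 0 = u ∧ y n = v ∧
      (∀ i < n, E (y i) (y (i + 1)) (s i)) ∧ balP s n = b := by
  induction h with
  | nil v => exact ⟨fun _ => v, fun _ => false, rfl, rfl, fun i hi => absurd hi (by omega), rfl⟩
  | snoc k v' x w d e _ he ih =>
    obtain ⟨y, s, h0, hk, hE, hP⟩ := ih
    refine ⟨fun i => if i ≤ k then y i else w, fun i => if i < k then s i else e, ?_, ?_, ?_, ?_⟩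
    · simp [h0]
    · simp
    · intro i hi
      rcases Nat.lt_or_ge i k with h1 | h1
      · have h2 : i ≤ k := by omega
        have h3 : i + 1 ≤ k := by omega
        simp only [h2, h3, h1, if_true]
        exact hE i h1
      · have h2 : i = k := by omega
        subst h2
        have h3 : ¬ (i + 1 ≤ i) := by omega
        simp only [le_refl, lt_irrefl, h3, if_true, if_false]
        rw [hk]
        exact he
    · show xor (balP _ k) _ = _
      rw [bal_P_congr _ s k (fun i hi => by simp [hi]), hP]
      simp

theorem bal_card (b : ℕ → Bool) (n : ℕ) :
    Odd ((Finset.range n).filter (fun i => b i = true)).card ↔ balP b n = true := by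
  induction n with
  | zero => simp [balP]
  | succ n ih =>
    have h0 : balP b (n + 1) = xor (balP b n) (b n) := rfl
    rw [Finset.range_add_one, Finset.filter_insert, h0]
    cases hb : b n with
    | false =>
      simp only [Bool.false_eq_true, if_false, Bool.xor_false]
      exact ih
    | true =>
      simp only [if_true, Bool.xor_true]
      rw [Finset.card_insert_of_notMem (by simp), Nat.odd_add_one, ih]
      cases balP b n <;> simp

theorem st_BAL : ST_BAL := by
  intro α E hE
  by_cases hA : ∃ n : ℕ, ∃ u, balW E n u u true
  · right
    classical
    obtain ⟨t, ht⟩ : ∃ t, t = Nat.find hA := ⟨_, rfl⟩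
    obtain ⟨u, hu⟩ := Nat.find_spec hA
    rw [← ht] at hu
    have hmin : ∀ k v, balW E k v v true → t ≤ k := by
      intro k v hk
      rw [ht]
      exact Nat.find_min' hA ⟨v, hk⟩
    obtain ⟨y0, s0, hy0, hyt, hEs, hPt⟩ := bal_extract hu
    have ht0 : 1 ≤ t := by
      rcases Nat.eq_zero_or_pos t with h | h
      · rw [h] at hPt
        exact absurd hPt (by simp [balP])
      · exact h
    -- the periodic sequences
    obtain ⟨y, hy⟩ : ∃ y : ℕ → α, ∀ i, y i = y0 (i % t) := ⟨_, fun _ => rfl⟩
    obtain ⟨b, hb⟩ : ∃ b : ℕ → Bool, ∀ i, b i = s0 (i % t) := ⟨_, fun _ => rfl⟩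
    have hyp : ∀ i, y (i + t) = y i := by
      intro i
      rw [hy, hy, Nat.add_mod_right]
    have hbp : ∀ i, b (i + t) = b i := by
      intro i
      rw [hb, hb, Nat.add_mod_right]
    have hEy : ∀ i, E (y i) (y (i + 1)) (b i) := by
      intro i
      have h1 : i % t < t := Nat.mod_lt _ ht0
      have h2 := hEs (i % t) h1
      rw [hy, hb]
      have h3 : y (i + 1) = y0 (i % t + 1) := by
        rw [hy]
        rcases Nat.lt_or_ge (i % t + 1) t with h4 | h4
        · rw [← Nat.mod_add_mod, Nat.mod_eq_of_lt h4]
        · have h5 : i % t + 1 = t := by omega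
          rw [← Nat.mod_add_mod, h5, Nat.mod_self, hyt, hy0]
      rw [h3]
      exact h2
    obtain ⟨P, hP⟩ : ∃ P : ℕ → Bool, ∀ i, P i = balP b i := ⟨_, fun _ => rfl⟩
    have hPs : ∀ i, P (i + 1) = xor (P i) (b i) := by
      intro i
      rw [hP, hP]
      rfl
    have hP0 : P 0 = false := by
      rw [hP]
      rfl
    have hPtt : P t = true := by
      rw [hP, ← hPt]
      apply bal_P_congr
      intro i hi
      rw [hb, Nat.mod_eq_of_lt hi]
    have hPp : ∀ i, P (i + t) = xor (P i) true := by
      intro i
      induction i with
      | zero =>
        rw [Nat.zero_add, hPtt, hP0]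
        rfl
      | succ i ih =>
        have h1 : i + 1 + t = i + t + 1 := by omega
        rw [h1, hPs, hPs, ih, hbp]
        cases P i <;> cases b i <;> rfl
    have seg : ∀ i k, balW E k (y i) (y (i + k)) (xor (P i) (P (i + k))) := by
      intro i k
      induction k with
      | zero =>
        rw [Nat.add_zero]
        have h1 : xor (P i) (P i) = false := by cases P i <;> rfl
        rw [h1]
        exact balW.nil _
      | succ k ih =>
        have h1 := balW.snoc _ _ _ _ _ _ ih (hEy (i + k))
        have h2 : xor (P i) (P (i + (k + 1))) = xor (xor (P i) (P (i + k))) (b (i + k)) := by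
          rw [← Nat.add_assoc, hPs]
          cases P i <;> cases P (i + k) <;> cases b (i + k) <;> rfl
        rw [h2]
        exact h1
    rcases Nat.lt_or_ge t 3 with h3 | h3
    · have h4 : t = 1 ∨ t = 2 := by omega
      rcases h4 with h4 | h4
      · left
        refine ⟨y 0, ?_⟩
        have h5 := hEy 0
        have h6 : y (0 + 1) = y 0 := by
          rw [← h4]
          exact hyp 0
        have h7 : b 0 = true := by
          have h8 := hPs 0
          rw [hP0, Nat.zero_add, ← h4, hPtt] at h8
          rw [h8]
          simp
        rw [h6, h7] at h5
        exact h5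
      · right
        left
        have h5 := hEy 0
        have h6 := hE _ _ _ (hEy 1)
        have h7 : y (1 + 1) = y 0 := by
          have h8 : 1 + 1 = 0 + t := by omega
          rw [h8]
          exact hyp 0
        rw [h7] at h6
        have h8 : xor (b 0) (b 1) = true := by
          have h9 := hPs 0
          have h10 := hPs 1
          have h11 : 1 + 1 = t := by omega
          rw [h11, hPtt] at h10
          rw [Nat.zero_add, hP0] at h9
          rw [h9] at h10
          rw [h10]
          simp
        rw [Nat.zero_add] at h5
        cases hb0 : b 0 with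
        | false =>
          cases hb1 : b 1 with
          | false =>
            rw [hb0, hb1] at h8
            exact absurd h8 (by decide)
          | true =>
            rw [hb0] at h5
            rw [hb1] at h6
            exact ⟨y 0, y 1, h6, h5⟩
        | true =>
          cases hb1 : b 1 with
          | false =>
            rw [hb0] at h5
            rw [hb1] at h6
            exact ⟨y 0, y 1, h5, h6⟩
          | true =>
            rw [hb0, hb1] at h8
            exact absurd h8 (by decide)
    · right
      right
      refine ⟨t, y, b, h3, hyp, hbp, hEy, ?_, ?_, ?_, ?_⟩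
      · rw [bal_card, ← hP]
        exact hPtt
      · intro g
        by_contra hcon
        push Not at hcon
        have h1 : ∀ k, k ≤ t → P k = xor (g (y 0)) (g (y k)) := by
          intro k
          induction k with
          | zero =>
            intro _
            rw [hP0]
            cases g (y 0) <;> rfl
          | succ k ih =>
            intro hk
            rw [hPs, ih (by omega), hcon k (by omega)]
            cases g (y 0) <;> cases g (y k) <;> cases g (y (k + 1)) <;> rfl
        have h2 := h1 t le_rfl
        have h4 : y t = y 0 := by
          have h5 := hyp 0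
          rw [Nat.zero_add] at h5
          exact h5
        rw [hPtt, h4] at h2
        cases hg : g (y 0) <;> rw [hg] at h2 <;> exact absurd h2 (by decide)
      · intro i hi
        have h1 := hEy i
        rw [← hi] at h1
        cases hbi : b i with
        | true =>
          rw [hbi] at h1
          have h2 := hmin _ _ (bal_single h1)
          omega
        | false =>
          have h2 := seg (i + 1) (t - 1)
          have h4 : i + 1 + (t - 1) = i + t := by omega
          rw [h4, hPs, hPp, hbi, hyp, ← hi] at h2
          have h5 : xor (xor (P i) false) (xor (P i) true) = true := by cases P i <;> rfl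
          rw [h5] at h2
          have h6 := hmin _ _ h2
          omega
      · intro i j hij hji
        have h1 := seg i (j - i)
        have h2 := seg j (i + t - j)
        have h4 : i + (j - i) = j := by omega
        have h5 : j + (i + t - j) = i + t := by omega
        rw [h4] at h1
        rw [h5, hyp, hPp] at h2
        constructor
        · intro heq
          rw [← heq] at h1 h2
          have h6 : xor (P i) (P j) = true ∨ xor (P j) (xor (P i) true) = true := by
            cases P i <;> cases P j <;> simp
          rcases h6 with h6 | h6
          · rw [h6] at h1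
            have := hmin _ _ h1
            omega
          · rw [h6] at h2
            have := hmin _ _ h2
            omega
        · intro b' hb'
          have h7 := bal_append h1 (bal_single (hE _ _ _ hb'))
          have h8 := bal_append h2 (bal_single hb')
          have h6 : xor (xor (P i) (P j)) b' = true ∨
              xor (xor (P j) (xor (P i) true)) b' = true := by
            cases P i <;> cases P j <;> cases b' <;> simp
          rcases h6 with h6 | h6
          · rw [h6] at h7
            have := hmin _ _ h7
            omega
          · rw [h6] at h8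
            have := hmin _ _ h8
            omega
  · left
    have hA' : ∀ n u, ¬ balW E n u u true := fun n u h => hA ⟨n, u, h⟩
    classical
    let S : Setoid α :=
      { r := fun u v => ∃ n b, balW E n u v b
        iseqv :=
          { refl := fun u => ⟨0, false, balW.nil u⟩
            symm := fun ⟨n, b, h⟩ => ⟨n, b, bal_symm hE h⟩
            trans := fun ⟨n, b, h⟩ ⟨m, c, h2⟩ => ⟨n + m, xor b c, bal_append h h2⟩ } }
    obtain ⟨rt, hrt⟩ : ∃ rt : α → α, ∀ v, rt v = (Quotient.mk S v).out := ⟨_, fun _ => rfl⟩
    have hrw : ∀ v, ∃ n b, balW E n (rt v) v b := by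
      intro v
      rw [hrt]
      exact Quotient.exact (s := S) (Quotient.out_eq (Quotient.mk S v))
    have hrtE : ∀ u v b, E u v b → rt u = rt v := by
      intro u v b h
      rw [hrt, hrt]
      have h1 : Quotient.mk S u = Quotient.mk S v :=
        Quotient.sound (s := S) ⟨1, b, bal_single h⟩
      rw [h1]
    obtain ⟨f, hf⟩ : ∃ f : α → Bool, ∀ v, ∃ n, balW E n (rt v) v (f v) := by
      choose n b hn using hrw
      exact ⟨b, fun v => ⟨n v, hn v⟩⟩
    refine ⟨f, fun u v b h => ?_⟩
    obtain ⟨n, hn⟩ := hf u
    obtain ⟨m, hm⟩ := hf v
    have h1 := bal_append (bal_append hn (bal_single h)) (bal_symm hE hm)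
    rw [hrtE u v b h] at h1
    cases hfu : f u <;> cases hfv : f v <;> cases b <;> first
      | rfl
      | (exfalso
         rw [hfu, hfv] at h1
         exact hA' _ _ h1)

end Pool.Agent.Helper64.DT
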